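import Pool.Agent.Helper36.TC.Defs
set_option autoImplicit false
set_option linter.unusedSectionVars false
open MeasureTheory Set Metric Module
open scoped Topology
namespace TC

variable {V : Type*} [NormedAddCommGroup V] [NormedSpace ℝ V]

/-- the integrand -/
noncomputable def limF (z : V) (t : ℝ) (y : V) : ℝ :=
  max 0 (1 - infDist y (segment ℝ 0 (t • z)))

theorem lim_seg {z p : V} {t : ℝ} (hp : p ∈ segment ℝ 0 (t • z)) :
    ∃ r : ℝ, 0 ≤ r ∧ r ≤ 1 ∧ p = (r * t) • z := by
  obtain ⟨a, b, ha, hb, hab, rfl⟩ := hp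
  refine ⟨b, hb, by linarith, ?_⟩
  rw [smul_zero, zero_add, smul_smul]

theorem lim_upper (z y : V) (t : ℝ) : infDist y (segment ℝ 0 (t • z)) ≤ ‖y‖ := by
  have := infDist_le_dist_of_mem (x := y) (left_mem_segment ℝ (0 : V) (t • z))
  simpa using this

theorem lim_upper' (z y : V) (t : ℝ) : infDist y (segment ℝ 0 (t • z)) ≤ ‖y - t • z‖ := by
  have := infDist_le_dist_of_mem (x := y) (right_mem_segment ℝ (0 : V) (t • z))
  rwa [dist_eq_norm] at this

theorem lim_lower (z y : V) {t : ℝ} (ht : 0 ≤ t) :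
    ‖y‖ - t * ‖z‖ ≤ infDist y (segment ℝ 0 (t • z)) := by
  rw [le_infDist ⟨0, left_mem_segment ℝ (0 : V) (t • z)⟩]
  intro p hp
  obtain ⟨r, hr0, hr1, rfl⟩ := lim_seg hp
  rw [dist_eq_norm]
  have h1 : ‖y‖ - ‖(r * t) • z‖ ≤ ‖y - (r * t) • z‖ := norm_sub_norm_le _ _
  have h2 : ‖(r * t) • z‖ ≤ t * ‖z‖ := by
    rw [norm_smul, Real.norm_eq_abs, abs_of_nonneg (mul_nonneg hr0 ht)]
    have : r * t ≤ t := mul_le_of_le_one_left ht hr1
    exact mul_le_mul_of_nonneg_right this (norm_nonneg _)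
  linarith

theorem lim_lower' (z : V) {y : V} (hy : Smooth y) {t : ℝ} (ht : 0 ≤ t) :
    ‖y‖ - t * max 0 (ND y z) ≤ infDist y (segment ℝ 0 (t • z)) := by
  rw [le_infDist ⟨0, left_mem_segment ℝ (0 : V) (t • z)⟩]
  intro p hp
  obtain ⟨r, hr0, hr1, rfl⟩ := lim_seg hp
  rw [dist_eq_norm]
  have h1 := nd_sub hy (-((r * t) • z))
  rw [← sub_eq_add_neg, map_neg, map_smul, smul_eq_mul] at h1
  have h2 : (r * t) * ND y z ≤ t * max 0 (ND y z) := by
    have h3 : (r * t) * ND y z ≤ (r * t) * max 0 (ND y z) :=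
      mul_le_mul_of_nonneg_left (le_max_right _ _) (mul_nonneg hr0 ht)
    have h4 : (r * t) * max 0 (ND y z) ≤ t * max 0 (ND y z) :=
      mul_le_mul_of_nonneg_right (mul_le_of_le_one_left ht hr1) (le_max_left _ _)
    exact h3.trans h4
  linarith

theorem lim_F_zero (z y : V) : limF z 0 y = max 0 (1 - ‖y‖) := by
  unfold limF
  rw [zero_smul, segment_same, infDist_singleton, dist_zero_right]

theorem lim_F_diff (z y : V) {t : ℝ} (ht : 0 ≤ t) : |limF z t y - limF z 0 y| ≤ t * ‖z‖ := by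
  rw [lim_F_zero]
  unfold limF
  have h1 := lim_upper z y t
  have h2 := lim_lower z y ht
  have h3 : |max 0 (1 - infDist y (segment ℝ 0 (t • z))) - max 0 (1 - ‖y‖)| ≤
      |(1 - infDist y (segment ℝ 0 (t • z))) - (1 - ‖y‖)| := by
    have := abs_max_sub_max_le_abs (1 - infDist y (segment ℝ 0 (t • z))) (1 - ‖y‖) 0
    rwa [max_comm _ (0 : ℝ), max_comm _ (0 : ℝ)] at this
  refine h3.trans ?_
  rw [abs_le]
  constructor <;> linarith [mul_nonneg ht (norm_nonneg z)]

theorem lim_F_out (z y : V) {t : ℝ} (ht : 0 ≤ t) (hy : 1 ≤ ‖y‖ - t * ‖z‖) : limF z t y = 0 := by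
  unfold limF
  have h2 := lim_lower z y ht
  exact max_eq_left (by linarith)

theorem lim_F_cont (z : V) (t : ℝ) : Continuous (limF z t) := by
  unfold limF
  exact continuous_const.max (continuous_const.sub (continuous_infDist_pt _))

variable [FiniteDimensional ℝ V]

theorem lim_F_supp (z : V) {t : ℝ} (ht : 0 ≤ t) : HasCompactSupport (limF z t) := by
  have : ProperSpace V := FiniteDimensional.proper ℝ V
  refine HasCompactSupport.intro (isCompact_closedBall (0 : V) (1 + t * ‖z‖)) fun y hy => ?_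
  refine lim_F_out z y ht ?_
  rw [mem_closedBall, dist_zero_right, not_le] at hy
  linarith

variable [MeasurableSpace V] [BorelSpace V]

theorem lim_F_int (μ : Measure V) [μ.IsAddHaarMeasure] (z : V) {t : ℝ} (ht : 0 ≤ t) :
    Integrable (limF z t) μ :=
  (lim_F_cont z t).integrable_of_hasCompactSupport (lim_F_supp z ht)

theorem lim_slope (z : V) {y : V} (hy : Smooth y) :
    Filter.Tendsto (fun t : ℝ => (‖y‖ - ‖y - t • z‖) / t) (𝓝[>] 0) (𝓝 (ND y z)) := by
  have h1 := (nd_hasDeriv hy (-z)).tendsto_slope.neg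
  have h2 : 𝓝[>] (0 : ℝ) ≤ 𝓝[≠] 0 := nhdsWithin_mono _ fun x hx => ne_of_gt hx
  have h3 := h1.mono_left h2
  rw [map_neg, neg_neg] at h3
  refine h3.congr' ?_
  filter_upwards [self_mem_nhdsWithin] with t ht
  rw [slope_def_field]
  simp only [smul_neg, zero_smul, add_zero, sub_zero]
  rw [← sub_eq_add_neg, neg_zero, add_zero]
  ring

theorem lim_point (z : V) {y : V} (hy : Smooth y) (hy1 : ‖y‖ ≠ 1) :
    Filter.Tendsto (fun t : ℝ => (limF z t y - limF z 0 y) / t) (𝓝[>] 0)
      (𝓝 ((closedBall (0 : V) 1).indicator (fun y => max 0 (ND y z)) y)) := by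
  rcases lt_or_gt_of_ne hy1 with h | h
  · rw [indicator_of_mem (by rw [mem_closedBall, dist_zero_right]; exact h.le)]
    have hlow : Filter.Tendsto (fun t : ℝ => max 0 ((‖y‖ - ‖y - t • z‖) / t)) (𝓝[>] 0)
        (𝓝 (max 0 (ND y z))) := tendsto_const_nhds.max (lim_slope z hy)
    refine tendsto_of_tendsto_of_tendsto_of_le_of_le' hlow
      (tendsto_const_nhds (x := max 0 (ND y z))) ?_ ?_
    · filter_upwards [self_mem_nhdsWithin] with t ht
      have ht' : (0 : ℝ) < t := ht
      have e1 : limF z t y - limF z 0 y = ‖y‖ - infDist y (segment ℝ 0 (t • z)) := by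
        rw [lim_F_zero, limF, max_eq_right, max_eq_right]
        · ring
        · linarith
        · linarith [lim_upper z y t]
      rw [e1, max_le_iff]
      constructor
      · exact div_nonneg (by linarith [lim_upper z y t]) ht'.le
      · exact div_le_div_of_nonneg_right (by linarith [lim_upper' z y t]) ht'.le
    · filter_upwards [self_mem_nhdsWithin] with t ht
      have ht' : (0 : ℝ) < t := ht
      have e1 : limF z t y - limF z 0 y = ‖y‖ - infDist y (segment ℝ 0 (t • z)) := by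
        rw [lim_F_zero, limF, max_eq_right, max_eq_right]
        · ring
        · linarith
        · linarith [lim_upper z y t]
      rw [e1, div_le_iff₀ ht']
      linarith [lim_lower' z hy ht'.le]
  · rw [indicator_of_notMem (by rw [mem_closedBall, dist_zero_right, not_le]; exact h)]
    have h0 : Filter.Tendsto (fun t : ℝ => ‖y‖ - t * ‖z‖) (𝓝[>] 0) (𝓝 (‖y‖ - 0 * ‖z‖)) := by
      refine Filter.Tendsto.mono_left ?_ nhdsWithin_le_nhds
      exact (Continuous.tendsto (by fun_prop) 0)
    have h1 : ∀ᶠ t in 𝓝[>] (0 : ℝ), 1 < ‖y‖ - t * ‖z‖ := by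
      refine h0.eventually (lt_mem_nhds ?_)
      simpa using h
    refine Filter.Tendsto.congr' ?_ tendsto_const_nhds
    filter_upwards [h1, self_mem_nhdsWithin] with t h2 ht
    rw [lim_F_out z y (le_of_lt ht) h2.le, lim_F_out z y le_rfl (by simpa using h.le)]
    simp

theorem lim_half (μ : Measure V) [μ.IsAddHaarMeasure] [Nontrivial V] {A k : ℝ}
    (h : ∀ x : V, ∫ y, max 0 (1 - infDist y (segment ℝ 0 x)) ∂μ = A + k * ‖x‖) (z : V) :
    ∫ y in closedBall (0:V) 1, max 0 (ND y z) ∂μ = k * ‖z‖ := by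
  have : ProperSpace V := FiniteDimensional.proper ℝ V
  have hae : ∀ᵐ y ∂μ, ‖y‖ ≠ 1 := by
    have h1 := Measure.addHaar_sphere μ (0 : V) 1
    rw [measure_eq_zero_iff_ae_notMem] at h1
    filter_upwards [h1] with y hy h2
    exact hy (by rw [mem_sphere, dist_zero_right, h2])
  have hlim : Filter.Tendsto (fun t : ℝ => ∫ y, (limF z t y - limF z 0 y) / t ∂μ) (𝓝[>] 0)
      (𝓝 (∫ y, (closedBall (0 : V) 1).indicator (fun y => max 0 (ND y z)) y ∂μ)) := by
    refine tendsto_integral_filter_of_dominated_convergence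
      ((closedBall (0 : V) (1 + ‖z‖)).indicator (fun _ => ‖z‖)) ?_ ?_ ?_ ?_
    · filter_upwards with t
      exact ((((lim_F_cont z t).sub (lim_F_cont z 0)).div_const t)).aestronglyMeasurable
    · have h1 : ∀ᶠ t in 𝓝[>] (0 : ℝ), t < 1 :=
        nhdsWithin_le_nhds (Iio_mem_nhds zero_lt_one)
      filter_upwards [h1, self_mem_nhdsWithin] with t ht1 ht
      have ht' : (0 : ℝ) < t := ht
      filter_upwards with y
      by_cases hy : y ∈ closedBall (0 : V) (1 + ‖z‖)
      · rw [indicator_of_mem hy, norm_div, Real.norm_eq_abs, Real.norm_eq_abs,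
          abs_of_pos ht', div_le_iff₀ ht', mul_comm]
        exact lim_F_diff z y ht'.le
      · rw [indicator_of_notMem hy]
        rw [mem_closedBall, dist_zero_right, not_le] at hy
        have h2 : t * ‖z‖ ≤ ‖z‖ := mul_le_of_le_one_left (norm_nonneg _) ht1.le
        rw [lim_F_out z y ht'.le (by linarith), lim_F_out z y le_rfl (by
          have := norm_nonneg z; linarith)]
        simp
    · refine (integrable_indicator_iff measurableSet_closedBall).2 ?_
      exact integrableOn_const (by exact (isCompact_closedBall _ _).measure_lt_top.ne)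
    · filter_upwards [ae_smooth μ, hae] with y hy1 hy2
      exact lim_point z hy1 hy2
  have hval : ∀ᶠ t in 𝓝[>] (0 : ℝ), ∫ y, (limF z t y - limF z 0 y) / t ∂μ = k * ‖z‖ := by
    filter_upwards [self_mem_nhdsWithin] with t ht
    have ht' : (0 : ℝ) < t := ht
    rw [integral_div, integral_sub (lim_F_int μ z ht'.le) (lim_F_int μ z le_rfl)]
    have h1 : ∫ y, limF z t y ∂μ = A + k * ‖t • z‖ := h (t • z)
    have h2 : ∫ y, limF z 0 y ∂μ = A + k * ‖(0 : ℝ) • z‖ := h ((0 : ℝ) • z)
    rw [h1, h2, norm_smul, Real.norm_eq_abs, abs_of_pos ht', zero_smul, norm_zero]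
    field_simp
    ring
  have hlim2 : Filter.Tendsto (fun t : ℝ => ∫ y, (limF z t y - limF z 0 y) / t ∂μ) (𝓝[>] 0)
      (𝓝 (k * ‖z‖)) := Filter.Tendsto.congr' (Filter.EventuallyEq.symm hval) tendsto_const_nhds
  have := tendsto_nhds_unique hlim hlim2
  rwa [integral_indicator measurableSet_closedBall] at this

theorem lim_int (μ : Measure V) [μ.IsAddHaarMeasure] (z : V) :
    IntegrableOn (fun y => max 0 (ND y z)) (closedBall (0:V) 1) μ := by
  have : ProperSpace V := FiniteDimensional.proper ℝ V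
  refine Integrable.mono' (g := fun _ => ‖z‖) ?_ ?_ ?_
  · exact integrableOn_const (by exact (isCompact_closedBall _ _).measure_lt_top.ne)
  · exact (measurable_const.max (measurable_nd_apply z)).aestronglyMeasurable
  · filter_upwards with y
    rw [Real.norm_eq_abs, abs_of_nonneg (le_max_left _ _)]
    exact max_le (norm_nonneg _) (nd_le y z)

theorem lim_vol (μ : Measure V) [μ.IsAddHaarMeasure] [Nontrivial V] {A k : ℝ}
    (h : ∀ x : V, ∫ y, max 0 (1 - infDist y (segment ℝ 0 x)) ∂μ = A + k * ‖x‖) (z : V) :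
    ∫ y in closedBall (0:V) 1, |ND y z| ∂μ = 2 * k * ‖z‖ := by
  have e : ∀ y : V, |ND y z| = max 0 (ND y z) + max 0 (ND y (-z)) := by
    intro y
    rw [map_neg]
    rcases le_total 0 (ND y z) with h1 | h1
    · rw [abs_of_nonneg h1, max_eq_right h1, max_eq_left (by linarith)]; ring
    · rw [abs_of_nonpos h1, max_eq_left h1, max_eq_right (by linarith)]; ring
  simp_rw [e]
  rw [integral_add (lim_int μ z) (lim_int μ (-z)), lim_half μ h z, lim_half μ h (-z), norm_neg]
  ring

end TC
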